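import Pool.Agent.LUB.Stmts

/-!
# Squad LUB, row HLG: the polynomial `l` gives the `p`-adic logarithm
-/

set_option autoImplicit false

open Polynomial NumberField Filter Topology
open Pool.Agent.Helper85_Leo (LeopoldtAt HasLog)

namespace Pool.Agent.LUB.H83

theorem norm_emb (p : ℕ) [Fact p.Prime] (x : ℤ_[p]) : ‖emb p x‖ = ‖x‖ := by
  show ‖algebraMap ℚ_[p] ℂ_[p] ((x : ℤ_[p]) : ℚ_[p])‖ = ‖x‖
  rw [norm_algebraMap']
  rfl

theorem norm_ev (p : ℕ) [Fact p.Prime] (q : ℤ_[p][X]) {ξ : ℂ_[p]} (hξ : ‖ξ‖ ≤ 1) :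
    ‖eval₂ (emb p) ξ q‖ ≤ 1 := by
  rw [eval₂_eq_sum_range]
  refine IsUltrametricDist.norm_sum_le_of_forall_le_of_nonneg zero_le_one fun k _ => ?_
  rw [norm_mul, norm_pow, norm_emb]
  calc ‖q.coeff k‖ * ‖ξ‖ ^ k ≤ 1 * 1 :=
        mul_le_mul (PadicInt.norm_le_one _) (pow_le_one₀ (norm_nonneg _) hξ) (by positivity)
          zero_le_one
    _ = 1 := one_mul 1

theorem hlg : HlgStmt := by
  intro p hp F w l ξ hL hF hξ
  have hc0 := Pool.Agent.Helper85_Leo.charZero_of_padic p ℂ_[p]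
  obtain ⟨W, hW⟩ : ∃ W, W = eval₂ (emb p) ξ w := ⟨_, rfl⟩
  obtain ⟨y, hy⟩ : ∃ y, y = -((p : ℂ_[p]) ^ 2 * W) := ⟨_, rfl⟩
  have hpn : ‖(p : ℂ_[p])‖ = (p : ℝ)⁻¹ := Pool.Agent.Helper85_Leo.norm_p_eq p
  have hp1 : (1 : ℝ) < p := by exact_mod_cast hp.out.one_lt
  have hpi : (p : ℝ)⁻¹ < 1 := inv_lt_one_of_one_lt₀ hp1
  have hpi0 : (0 : ℝ) ≤ (p : ℝ)⁻¹ := by positivity
  have hy1 : ‖y‖ < 1 := by
    rw [hy, norm_neg, norm_mul, norm_pow, hpn]
    calc ((p : ℝ)⁻¹) ^ 2 * ‖W‖ ≤ ((p : ℝ)⁻¹) ^ 2 * 1 :=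
          mul_le_mul_of_nonneg_left (by rw [hW]; exact norm_ev p w hξ) (by positivity)
      _ < 1 := by
          rw [mul_one]
          exact pow_lt_one₀ hpi0 hpi two_ne_zero
  have h1 := Pool.Agent.Helper85_Leo.hasLog_one_sub (p := p) hy1
  have h2 : (1 : ℂ_[p]) - y = 1 + (p : ℂ_[p]) ^ 2 * eval₂ (emb p) ξ w := by
    rw [hy, ← hW]
    ring
  rw [h2] at h1
  have hsum : Summable fun k : ℕ => y ^ (k + 1) / ((k + 1 : ℕ) : ℂ_[p]) := by
    refine Summable.of_norm_bounded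
      (Pool.Agent.Helper85_Leo.summable_real_bound (norm_nonneg y) hy1) fun k => ?_
    rw [norm_div, norm_pow, div_eq_mul_inv, mul_comm]
    exact mul_le_mul_of_nonneg_right
      (Pool.Agent.Helper85_Leo.norm_natCast_inv_le p (k + 1) (Nat.succ_ne_zero k)) (by positivity)
  have hT := hsum.hasSum.tendsto_sum_nat
  have hpart : ∀ N : ℕ, ∃ a : ℤ_[p][X], ∑ k ∈ Finset.range N, y ^ (k + 1) / ((k + 1 : ℕ) : ℂ_[p]) =
      -eval₂ (emb p) ξ l + (p : ℂ_[p]) ^ (N + 1) * eval₂ (emb p) ξ a := by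
    intro N
    obtain ⟨a, b, hab⟩ := hL (N + 1)
    refine ⟨a, ?_⟩
    have h3 := congrArg (eval₂ (emb p) ξ) hab
    rw [eval₂_add, eval₂_add, eval₂_mul, eval₂_mul, hF, zero_mul, add_zero, eval₂_finsetSum,
      eval₂_C, Finset.sum_range_succ'] at h3
    have h4 : eval₂ (emb p) ξ (C (algebraMap ℤ_[p] ℤ_[p] (lc p 0)) * w ^ 0) = 0 := by
      rw [lc_zero, map_zero, C_0, zero_mul, eval₂_zero]
    rw [h4, add_zero] at h3
    have h5 : ∀ k : ℕ, eval₂ (emb p) ξ (C (algebraMap ℤ_[p] ℤ_[p] (lc p (k + 1))) * w ^ (k + 1)) =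
        -(y ^ (k + 1) / ((k + 1 : ℕ) : ℂ_[p])) := by
      intro k
      have hk : ((k + 1 : ℕ) : ℂ_[p]) ≠ 0 := by exact_mod_cast Nat.succ_ne_zero k
      have h6 := congrArg (emb p) (lc_spec p (k + 1) (Nat.succ_ne_zero k))
      rw [map_mul, map_natCast, map_mul, map_pow, map_pow, map_neg, map_one, map_natCast] at h6
      rw [eval₂_mul, eval₂_pow, eval₂_C, ← hW]
      have h7 : emb p (algebraMap ℤ_[p] ℤ_[p] (lc p (k + 1))) = emb p (lc p (k + 1)) := rfl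
      rw [h7, ← neg_div, eq_div_iff hk]
      have h8 : y ^ (k + 1) = (-1) ^ (k + 1) * (p : ℂ_[p]) ^ (2 * (k + 1)) * W ^ (k + 1) := by
        rw [hy, neg_pow, mul_pow, ← pow_mul]
        ring
      rw [h8]
      have h9 : ((-1 : ℂ_[p])) ^ (k + 1 + 1) = -(-1) ^ (k + 1) := by
        rw [pow_succ]
        ring
      rw [h9] at h6
      linear_combination W ^ (k + 1) * h6
    rw [Finset.sum_congr rfl fun k _ => h5 k, Finset.sum_neg_distrib] at h3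
    have h10 : emb p ((p : ℤ_[p]) ^ (N + 1)) = (p : ℂ_[p]) ^ (N + 1) := by
      rw [map_pow, map_natCast]
    rw [h10] at h3
    rw [h3]
    ring
  have hlim : Tendsto (fun N : ℕ => ∑ k ∈ Finset.range N, y ^ (k + 1) / ((k + 1 : ℕ) : ℂ_[p]))
      atTop (𝓝 (-eval₂ (emb p) ξ l)) := by
    rw [tendsto_iff_norm_sub_tendsto_zero]
    have h3 : Tendsto (fun N : ℕ => ((p : ℝ)⁻¹) ^ N) atTop (𝓝 0) :=
      tendsto_pow_atTop_nhds_zero_of_lt_one hpi0 hpi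
    refine squeeze_zero (fun N => norm_nonneg _) (fun N => ?_) h3
    obtain ⟨a, ha⟩ := hpart N
    rw [ha, add_sub_cancel_left, norm_mul, norm_pow, hpn, pow_succ]
    calc ((p : ℝ)⁻¹) ^ N * (p : ℝ)⁻¹ * ‖eval₂ (emb p) ξ a‖ ≤ ((p : ℝ)⁻¹) ^ N * 1 * 1 := by
          refine mul_le_mul (mul_le_mul_of_nonneg_left hpi.le (by positivity)) (norm_ev p a hξ)
            (norm_nonneg _) (by positivity)
      _ = ((p : ℝ)⁻¹) ^ N := by ring
  have h3 := tendsto_nhds_unique hT hlim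
  rw [h3, neg_neg] at h1
  exact h1

end Pool.Agent.LUB.H83
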