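import Pool.Agent.LUB.Stmts
import Pool.Agent.Helper65_Leo.Local

/-!
# Squad LUB, row CRI: the criterion
-/

set_option autoImplicit false

open Polynomial NumberField Filter Topology
open Pool.Agent.Helper85_Leo (LeopoldtAt HasLog unitVal)

namespace Pool.Agent.LUB.H83C

theorem emb_inj (p : ℕ) [Fact p.Prime] : Function.Injective (emb p) := by
  intro x y h
  have h1 : ((x : ℤ_[p]) : ℚ_[p]) = ((y : ℤ_[p]) : ℚ_[p]) :=
    (algebraMap ℚ_[p] ℂ_[p]).injective h
  exact Subtype.ext h1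

theorem ev_map (p : ℕ) [Fact p.Prime] {K : Type} [Field K] [NumberField K] (σ : K →+* ℂ_[p])
    (θ : 𝓞 K) (q : ℤ[X]) :
    eval₂ (emb p) (σ (θ : K)) (q.map (Int.castRingHom ℤ_[p])) = σ ((aeval θ q : 𝓞 K) : K) := by
  have h1 : ((aeval θ q : 𝓞 K) : K) = eval₂ (Int.castRingHom K) (θ : K) q := by
    show algebraMap (𝓞 K) K (eval₂ (algebraMap ℤ (𝓞 K)) θ q) = _
    rw [hom_eval₂]
    rfl
  rw [h1, hom_eval₂, eval₂_map]
  congr 1
  exact RingHom.ext_int _ _

theorem cri : CriStmt := by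
  intro hlg p hp r K _ _ θ F hF hθ hgen hfr u hu M hM w b l hw hl hdeg hrank hJ
  obtain ⟨J, hJ⟩ := hJ
  classical
  obtain ⟨η, hη⟩ : ∃ η : Fin r → (𝓞 K)ˣ, ∀ i, (η i : 𝓞 K) = aeval θ (u i) :=
    ⟨fun i => (hu i).unit, fun i => IsUnit.unit_spec _⟩
  obtain ⟨ξ, hξd⟩ : ∃ ξ : (K →ₐ[ℚ] ℂ_[p]) → ℂ_[p], ξ = fun σ => σ (θ : K) := ⟨_, rfl⟩
  have hξ : ∀ σ, ξ σ = (σ : K →ₐ[ℚ] ℂ_[p]).toRingHom (θ : K) := by
    intro σ
    rw [hξd]
    rfl
  have hξ1 : ∀ σ, ‖ξ σ‖ ≤ 1 := by
    intro σ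
    rw [hξ]
    exact Pool.Agent.Helper85_Leo.norm_embedding_le_one _ θ
  have hF0 : ∀ σ, eval₂ (emb p) (ξ σ) (F.map (Int.castRingHom ℤ_[p])) = 0 := by
    intro σ
    rw [hξ, ev_map, hθ]
    simp
  have hinj : Function.Injective ξ := by
    intro σ τ hστ
    have h0 : σ (θ : K) = τ (θ : K) := by
      rw [hξd] at hστ
      exact hστ
    have h3 : ∀ x ∈ IntermediateField.adjoin ℚ {(θ : K)}, σ x = τ x := by
      intro x hx
      induction hx using IntermediateField.adjoin_induction with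
      | mem x hx =>
        rw [Set.mem_singleton_iff.1 hx]
        exact h0
      | algebraMap x => rw [σ.commutes, τ.commutes]
      | add x y _ _ h1 h2 => rw [map_add, map_add, h1, h2]
      | inv x _ h1 => rw [map_inv₀, map_inv₀, h1]
      | mul x y _ _ h1 h2 => rw [map_mul, map_mul, h1, h2]
    ext x
    exact h3 x (by rw [hgen]; exact IntermediateField.mem_top)
  refine Pool.Agent.Helper65_Leo.leopoldtAt_of_independent_logs p η M
    (fun σ : K →ₐ[ℚ] ℂ_[p] => σ.toRingHom) (fun σ i => eval₂ (emb p) (ξ σ) (l i)) ?_ ?_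
    (by rw [Fintype.card_fin]; exact hrank)
  · intro σ i
    have h1 := hlg p (F.map (Int.castRingHom ℤ_[p])) (w i) (l i) (ξ σ) (hl i) (hF0 σ) (hξ1 σ)
    have h2 := congrArg (eval₂ (emb p) (ξ σ)) (hw i)
    rw [eval₂_pow, eval₂_add, eval₂_add, eval₂_mul, eval₂_mul, hF0, zero_mul, add_zero, eval₂_one,
      eval₂_C, map_pow, map_natCast, hξ, ev_map] at h2
    have h3 : unitVal σ.toRingHom (η i) = σ.toRingHom ((aeval θ (u i) : 𝓞 K) : K) := by
      show σ.toRingHom (((η i : (𝓞 K)ˣ) : 𝓞 K) : K) = _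
      rw [hη]
    rw [h3, h2, ← hξ]
    exact h1
  · intro c hc
    obtain ⟨Q, hQ⟩ : ∃ Q : ℂ_[p][X], Q = ∑ i, C (c i) * (l i).map (emb p) := ⟨_, rfl⟩
    have hQ1 : ∀ σ, Q.eval (ξ σ) = 0 := by
      intro σ
      rw [hQ, eval_finsetSum, ← hc σ]
      refine Finset.sum_congr rfl fun i _ => ?_
      rw [eval_mul, eval_C, eval_map]
    have hQ2 : Q.degree < F.natDegree := by
      rw [hQ]
      refine lt_of_le_of_lt (degree_sum_le _ _) ?_
      rw [Finset.sup_lt_iff (by exact_mod_cast WithBot.bot_lt_coe _)]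
      intro i _
      refine lt_of_le_of_lt (degree_mul_le _ _) ?_
      refine lt_of_le_of_lt (add_le_add degree_C_le degree_map_le) ?_
      rw [zero_add]
      exact hdeg i
    have hQ0 : Q = 0 := by
      by_contra h0
      apply h0
      refine eq_zero_of_natDegree_lt_card_of_eval_eq_zero Q hinj hQ1 ?_
      rw [AlgHom.card, hfr]
      exact (natDegree_lt_iff_degree_lt h0).2 hQ2
    have hdet : ((Matrix.of fun (i k : Fin r) => (l i).coeff (J k)).map (emb p)).det ≠ 0 := by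
      have h1 : ((Matrix.of fun (i k : Fin r) => (l i).coeff (J k)).map (emb p)).det =
          emb p ((Matrix.of fun (i k : Fin r) => (l i).coeff (J k)).det) :=
        (RingHom.map_det (emb p) _).symm
      rw [h1]
      intro h2
      apply hJ
      exact emb_inj p (by rw [h2, map_zero])
    refine Matrix.eq_zero_of_vecMul_eq_zero hdet ?_
    funext k
    have h1 := congrArg (fun q : ℂ_[p][X] => q.coeff (J k)) hQ0
    rw [hQ] at h1
    simp only [finsetSum_coeff, coeff_C_mul, coeff_map, coeff_zero] at h1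
    rw [Pi.zero_apply, ← h1]
    rfl

end Pool.Agent.LUB.H83C
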